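import Pool.Agent.Helper14.BSC.Stmts

/-!
# MIN: `π` generates the maximal ideal of `B`
-/

set_option autoImplicit false

namespace Pool.Agent.Helper14.BSC

/-- the maximality argument in an ordered group -/
theorem min_abs {N Γ : Type} [Field N] [LinearOrderedCommGroupWithZero Γ] (v : Valuation N Γ) (π : N)
    (hπ0 : v π ≠ 0) (p : ℕ)
    (K : ∀ x : N, x ≠ 0 → ∀ n : ℕ, 0 < n → ∃ a : ℤ, ∃ y : N, y ≠ 0 ∧ v x = v π ^ a * v y ^ n)
    (P : ∀ g : N, v g < 1 → v g ^ p ≤ v π) : ∀ x : N, v x < 1 → v x ≤ v π := by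
  classical
  by_contra hcon
  push Not at hcon
  obtain ⟨x0, hx01, hx0⟩ := hcon
  set Q : ℕ → Prop := fun J => ∃ x : N, v π < v x ∧ v x < 1 ∧ v π ≤ v x ^ J with hQ
  have hπpos : (0 : Γ) < v π := zero_lt_iff.2 hπ0
  have Q1 : Q 1 := ⟨x0, hx0, hx01, by rw [pow_one]; exact hx0.le⟩
  have Qle : ∀ J, Q J → J ≤ p := by
    rintro J ⟨x, h1, h2, h3⟩
    by_contra hJ
    push Not at hJ
    have h4 := P x h2
    have h5 : v x ^ J < v x ^ p := pow_lt_pow_right_of_lt_one₀ (hπpos.trans h1) h2 hJ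
    exact absurd (h5.trans_le h4) (not_lt.2 h3)
  set J := Nat.findGreatest Q p with hJdef
  have QJ : Q J := Nat.findGreatest_spec (P := Q) (Qle 1 Q1) Q1
  have Qmax : ∀ m, J < m → ¬ Q m := by
    intro m hm hQm
    exact absurd (Nat.le_findGreatest (Qle m hQm) hQm) (not_le.2 hm)
  have hJ1 : 1 ≤ J := Nat.le_findGreatest (Qle 1 Q1) Q1
  obtain ⟨x, hx1, hx2, hx3⟩ := QJ
  have hxpos : (0 : Γ) < v x := hπpos.trans hx1
  have hx0' : x ≠ 0 := by
    rintro rfl
    simp at hxpos
  have hlt : v x ^ (J + 1) < v π := by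
    by_contra h
    exact Qmax (J + 1) (Nat.lt_succ_self J) ⟨x, hx1, hx2, not_lt.1 h⟩
  have hgJ : (0 : Γ) < v x ^ J := pow_pos hxpos J
  set r : N := π / x ^ J with hr
  have hvr : v r = v π / v x ^ J := by rw [hr, map_div₀, map_pow]
  have hr1 : v r ≤ 1 := by
    rw [hvr, div_le_one₀ hgJ]
    exact hx3
  have hrx : v x < v r := by
    rw [hvr, lt_div_iff₀ hgJ]
    rw [pow_succ'] at hlt
    exact hlt
  have hr0 : r ≠ 0 := by
    intro h
    rw [h, map_zero] at hrx
    exact absurd hrx (not_lt.2 zero_le)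
  have hrpos : (0 : Γ) < v r := hxpos.trans hrx
  rcases hr1.lt_or_eq with hlt1 | heq1
  · have hrJ : v r ^ (J + 1) < v π := by
      by_contra h
      exact Qmax (J + 1) (Nat.lt_succ_self J) ⟨r, hx1.trans hrx, hlt1, not_lt.1 h⟩
    set r2 : N := x / r with hr2
    have hvr2 : v r2 = v x / v r := by rw [hr2, map_div₀]
    have hr21 : v r2 < 1 := by
      rw [hvr2, div_lt_one₀ hrpos]
      exact hrx
    have hr2x : v x < v r2 := by
      rw [hvr2, lt_div_iff₀ hrpos]
      calc v x * v r < v x * 1 := by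
            exact mul_lt_mul_of_pos_left hlt1 hxpos
        _ = v x := mul_one _
    have hr2J : v r2 ^ (J + 1) < v π := by
      by_contra h
      exact Qmax (J + 1) (Nat.lt_succ_self J) ⟨r2, hx1.trans hr2x, hr21, not_lt.1 h⟩
    have e1 : v r * v r2 = v x := by
      rw [hvr2, mul_div_cancel₀ _ hrpos.ne']
    have h1 : v x ^ (J + 1) < v π * v π := by
      rw [← e1, mul_pow]
      exact mul_lt_mul'' hrJ hr2J zero_le zero_le
    have h2 : v π * v π < v x ^ (J + 1) := by
      rw [pow_succ]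
      calc v π * v π < v π * v x := mul_lt_mul_of_pos_left hx1 hπpos
        _ ≤ v x ^ J * v x := mul_le_mul_of_nonneg_right hx3 zero_le
    exact absurd h1 (not_lt.2 h2.le)
  · have heq : v π = v x ^ J := by
      rw [hvr] at heq1
      exact (div_eq_one_iff_eq hgJ.ne').1 heq1
    have hJ2 : 2 ≤ J := by
      by_contra h
      have : J = 1 := by omega
      rw [this, pow_one] at heq
      exact absurd hx1 (by rw [heq]; exact lt_irrefl _)
    obtain ⟨a, y, hy0, hxy⟩ := K x hx0' J (by omega)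
    set t : N := x ^ a * y with ht
    have hvt : v t ^ J = v x := by
      have e1 : v t ^ J = v π ^ a * v y ^ J := by
        rw [ht, map_mul, map_zpow₀, mul_pow, ← zpow_natCast (v x ^ a), ← zpow_mul, mul_comm a, zpow_mul,
          zpow_natCast, ← heq]
      rw [e1, ← hxy]
    have ht1 : v t < 1 := by
      by_contra h
      have := one_le_pow₀ (not_lt.1 h) (n := J)
      rw [hvt] at this
      exact absurd hx2 (not_lt.2 this)
    have htpos : (0 : Γ) < v t := by
      rw [zero_lt_iff]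
      intro h
      rw [h, zero_pow (by omega)] at hvt
      exact hxpos.ne hvt
    have htx : v x < v t := by
      rw [← hvt]
      calc v t ^ J < v t ^ 1 := pow_lt_pow_right_of_lt_one₀ htpos ht1 (by omega)
        _ = v t := pow_one _
    have hJJ : J < J * J := by nlinarith
    exact Qmax (J * J) hJJ ⟨t, hx1.trans htx, ht1, by rw [pow_mul, hvt, ← heq]⟩

section

variable {k Ω : Type} [Field k] [Field Ω] [Algebra k Ω] {p : ℕ} [Fact p.Prime]

theorem min_nm_mul (Lc : Loc k Ω p) (x y : Acl k Ω) : nm Lc (x * y) = nm Lc x * nm Lc y := by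
  unfold nm
  rw [map_mul, norm_mul]

theorem min_nm_one (Lc : Loc k Ω p) : nm Lc 1 = 1 := by
  unfold nm
  rw [map_one, norm_one]

theorem min_nm_zpow (Lc : Loc k Ω p) (x : Acl k Ω) (j : ℤ) : nm Lc (x ^ j) = nm Lc x ^ j := by
  unfold nm
  rw [map_zpow₀, norm_zpow]

theorem min_nm_pow (Lc : Loc k Ω p) (x : Acl k Ω) (j : ℕ) : nm Lc (x ^ j) = nm Lc x ^ j := by
  unfold nm
  rw [map_pow, norm_pow]

theorem min_nm_div (Lc : Loc k Ω p) (x y : Acl k Ω) : nm Lc (x / y) = nm Lc x / nm Lc y := by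
  unfold nm
  rw [map_div₀, norm_div]

theorem min_nm_pos (Lc : Loc k Ω p) {x : Acl k Ω} (h : x ≠ 0) : 0 < nm Lc x := by
  unfold nm
  rw [norm_pos_iff]
  exact (map_ne_zero _).2 h

theorem min_nm_p (Lc : Loc k Ω p) : nm Lc (p : Acl k Ω) = (p : ℝ)⁻¹ := by
  unfold nm
  rw [map_natCast]
  have h := PadicComplex.norm_extends' p ((p : ℕ) : ℚ_[p])
  rw [Padic.norm_p] at h
  rw [← h]
  congr 1
  have e : (((((p : ℕ) : ℚ_[p]) : PadicAlgCl p)) : ℂ_[p]) = ((p : ℕ) : ℂ_[p]) := by
    rw [map_natCast, PadicComplex.coe_natCast]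
  exact e.symm

variable (D : Sec k Ω) (Lc : Loc k Ω p) (B : ValuationSubring (NN D Lc.S₁))

theorem min_le_iff (hB : Over D Lc B) (x : FF Lc.S₁) : B.valuation (inc D Lc.S₁ x) ≤ 1 ↔ nm Lc x ≤ 1 := by
  rw [ValuationSubring.valuation_le_one_iff]
  exact hB x

theorem min_unit (hB : Over D Lc B) (x : FF Lc.S₁) (h : nm Lc x = 1) : B.valuation (inc D Lc.S₁ x) = 1 := by
  have hx0 : x ≠ 0 := by
    rintro rfl
    have : nm Lc ((0 : FF Lc.S₁) : Acl k Ω) = 0 := by
      unfold nm
      simp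
    rw [this] at h
    exact zero_ne_one h
  have h1 := (min_le_iff D Lc B hB x).2 h.le
  have h2 : B.valuation (inc D Lc.S₁ x⁻¹) ≤ 1 := by
    rw [min_le_iff D Lc B hB]
    have e : (((x⁻¹ : FF Lc.S₁)) : Acl k Ω) = 1 / (x : Acl k Ω) := by
      rw [one_div]
      rfl
    rw [e, min_nm_div, min_nm_one, h, div_one]
  rw [map_inv₀, map_inv₀] at h2
  refine le_antisymm h1 ?_
  have hpos : (0 : B.ValueGroup) < B.valuation (inc D Lc.S₁ x) := by
    rw [zero_lt_iff, Valuation.ne_zero_iff]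
    exact (map_ne_zero _).2 hx0
  exact (inv_le_one₀ hpos).1 h2

/-- comparison of values of elements of `FF S₁` -/
theorem min_le (hB : Over D Lc B) (x y : FF Lc.S₁) (hy : y ≠ 0) :
    B.valuation (inc D Lc.S₁ x) ≤ B.valuation (inc D Lc.S₁ y) ↔ nm Lc x ≤ nm Lc y := by
  have hpos : (0 : B.ValueGroup) < B.valuation (inc D Lc.S₁ y) := by
    rw [zero_lt_iff, Valuation.ne_zero_iff]
    exact (map_ne_zero _).2 hy
  have hy' : (y : Acl k Ω) ≠ 0 := fun h => hy (Subtype.ext h)
  have h := min_le_iff D Lc B hB (x / y)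
  rw [map_div₀, map_div₀, div_le_one₀ hpos] at h
  rw [h]
  have e : ((x / y : FF Lc.S₁) : Acl k Ω) = (x : Acl k Ω) / (y : Acl k Ω) := rfl
  rw [e, min_nm_div, div_le_one₀ (min_nm_pos Lc hy')]

theorem min_lt (hB : Over D Lc B) (x y : FF Lc.S₁) (hx : x ≠ 0) :
    B.valuation (inc D Lc.S₁ x) < B.valuation (inc D Lc.S₁ y) ↔ nm Lc x < nm Lc y := by
  rw [← not_le, ← not_le, min_le D Lc B hB y x hx]

theorem min_pi_ne : (⟨Lc.π, Lc.memπ⟩ : FF Lc.S₁) ≠ 0 := by
  intro h
  have h1 : Lc.π = 0 := congrArg Subtype.val h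
  have := Lc.posπ
  rw [h1, map_zero, norm_zero] at this
  exact lt_irrefl _ this

theorem min_vpi_pos : (0 : B.ValueGroup) < B.valuation (piN D Lc) := by
  rw [zero_lt_iff, Valuation.ne_zero_iff]
  exact (map_ne_zero _).2 (min_pi_ne Lc)

theorem min_vpi_lt (hB : Over D Lc B) : B.valuation (piN D Lc) < 1 := by
  have h := min_lt D Lc B hB ⟨Lc.π, Lc.memπ⟩ 1 (min_pi_ne Lc)
  rw [map_one, map_one] at h
  refine h.2 ?_
  have e : nm Lc ((1 : FF Lc.S₁) : Acl k Ω) = 1 := min_nm_one Lc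
  rw [e]
  exact Lc.ltπ

theorem min_val_of (hB : Over D Lc B) (c : FF Lc.S₁) (j : ℤ) (h : nm Lc c = nm Lc Lc.π ^ j) :
    B.valuation (inc D Lc.S₁ c) = B.valuation (piN D Lc) ^ j := by
  have hπ : (⟨Lc.π, Lc.memπ⟩ : FF Lc.S₁) ≠ 0 := min_pi_ne Lc
  have hπpos : 0 < nm Lc Lc.π := Lc.posπ
  have h1 := min_unit D Lc B hB (c / (⟨Lc.π, Lc.memπ⟩ : FF Lc.S₁) ^ j) (by
    have e : ((c / (⟨Lc.π, Lc.memπ⟩ : FF Lc.S₁) ^ j : FF Lc.S₁) : Acl k Ω) = (c : Acl k Ω) / Lc.π ^ j := by
      push_cast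
      rfl
    rw [e, min_nm_div, min_nm_zpow, h, div_self]
    exact (zpow_pos hπpos j).ne')
  rw [map_div₀, map_div₀, map_zpow₀, map_zpow₀] at h1
  have hp := min_vpi_pos D Lc B
  have hp' : (B.valuation (piN D Lc)) ^ j ≠ 0 := zpow_ne_zero _ hp.ne'
  exact (div_eq_one_iff_eq hp').1 h1

theorem min_val (hB : Over D Lc B) (c : FF Lc.S₁) (hc : c ≠ 0) :
    ∃ j : ℤ, B.valuation (inc D Lc.S₁ c) = B.valuation (piN D Lc) ^ j := by
  have hc' : (c : Acl k Ω) ≠ 0 := fun h => hc (Subtype.ext h)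
  obtain ⟨j, hj⟩ := Lc.disc c c.2 hc'
  exact ⟨j, min_val_of D Lc B hB c j hj⟩

/-- no value `l ^ i` with `p ∤ i` is a `p`-th power -/
theorem min_noroot (hN : NoRoot D Lc B) (i : ℤ) (hi : ¬ (p : ℤ) ∣ i) (g : NN D Lc.S₁)
    (h : B.valuation (piN D Lc) ^ i = B.valuation g ^ p) : False := by
  have hcop : IsCoprime i (p : ℤ) := by
    have hpp : Prime (p : ℤ) := Nat.prime_iff_prime_int.1 (Fact.out : p.Prime)
    exact ((Prime.coprime_iff_not_dvd hpp).2 hi).symm
  obtain ⟨a, b, hab⟩ := hcop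
  set l := B.valuation (piN D Lc) with hl
  have hlpos : (0 : B.ValueGroup) < l := min_vpi_pos D Lc B
  set t : NN D Lc.S₁ := g ^ a * piN D Lc ^ b with ht
  have hvt : B.valuation t ^ p = l := by
    rw [ht, map_mul, map_zpow₀, map_zpow₀, mul_pow, ← zpow_natCast (B.valuation g ^ a), ← zpow_mul, mul_comm a,
      zpow_mul, zpow_natCast, ← h, ← zpow_natCast (B.valuation (piN D Lc) ^ b), ← zpow_mul, ← zpow_mul,
      ← zpow_add₀ hlpos.ne']
    have e : i * a + b * (p : ℤ) = 1 := by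
      rw [mul_comm i a]
      exact hab
    rw [e, zpow_one]
  have ht0 : t ≠ 0 := by
    intro h0
    rw [h0, map_zero, zero_pow (Fact.out : p.Prime).ne_zero] at hvt
    exact hlpos.ne hvt
  have hp0 : piN D Lc ≠ 0 := by
    intro h0
    rw [hl, h0, map_zero] at hlpos
    exact lt_irrefl _ hlpos
  have htp : t ^ p ≠ 0 := pow_ne_zero _ ht0
  have hε : B.valuation (piN D Lc / t ^ p) = 1 := by
    rw [map_div₀, map_pow, hvt, ← hl, div_self hlpos.ne']
  refine hN t (piN D Lc / t ^ p) ?_ ?_ ?_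
  · rw [← ValuationSubring.valuation_le_one_iff, hε]
  · rw [← ValuationSubring.valuation_le_one_iff, map_inv₀, hε, inv_one]
  · rw [mul_div_cancel₀ _ htp]

end

theorem st_MIN (hA0 : ST_A0) (hKUM : ST_KUM) (hCYC : ST_CYC) : ST_MIN := by
  intro k Ω _ _ _ _ _ D p hpf Lc B hB hN
  have hpp : p.Prime := hpf.out
  set v := B.valuation with hv
  set l := v (piN D Lc) with hl
  have hlpos : (0 : B.ValueGroup) < l := min_vpi_pos D Lc B
  have hl1 : l < 1 := min_vpi_lt D Lc B hB
  have hp2 : 2 ≤ p := hpp.two_le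
  -- the element lambda
  set lam : FF Lc.S₁ := ⟨Lc.ζ - 1, sub_mem Lc.memζ (one_mem _)⟩ with hlam
  have hlamN : lamN D Lc = inc D Lc.S₁ lam := rfl
  have hcyc := hCYC k Ω p Lc
  have hlamnm : nm Lc lam ^ (p - 1) = (p : ℝ)⁻¹ := hcyc
  have hp1 : (1 : ℝ) < p := by exact_mod_cast hpp.one_lt
  have hlam0 : lam ≠ 0 := by
    intro h
    rw [h] at hlamnm
    have e : nm Lc ((0 : FF Lc.S₁) : Acl k Ω) = 0 := by
      unfold nm
      simp
    rw [e, zero_pow (by omega)] at hlamnm
    have : (0 : ℝ) < (p : ℝ)⁻¹ := by positivity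
    exact this.ne hlamnm
  have hlampos : (0 : ℝ) < nm Lc lam := min_nm_pos Lc fun h => hlam0 (Subtype.ext h)
  have hlam1 : nm Lc lam < 1 := by
    by_contra h
    have h2 := one_le_pow₀ (not_lt.1 h) (n := p - 1)
    rw [hlamnm] at h2
    have : (p : ℝ)⁻¹ < 1 := inv_lt_one_of_one_lt₀ hp1
    linarith
  set w := v (lamN D Lc) with hw
  have hwpos : (0 : B.ValueGroup) < w := by
    rw [hw, zero_lt_iff, Valuation.ne_zero_iff, hlamN]
    exact (map_ne_zero _).2 hlam0
  -- w(lambda) ≤ l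
  have hwl : w ≤ l := by
    have hlam0' : (lam : Acl k Ω) ≠ 0 := fun h => hlam0 (Subtype.ext h)
    obtain ⟨j, hj⟩ := Lc.disc lam lam.2 hlam0'
    have h1 : w = l ^ j := min_val_of D Lc B hB lam j hj
    rw [h1]
    have hj1 : 1 ≤ j := by
      by_contra hjc
      have hj0 : j ≤ 0 := by omega
      have h3 : (1 : ℝ) ≤ nm Lc Lc.π ^ j := by
        have := zpow_le_zpow_right_of_le_one₀ Lc.posπ Lc.ltπ.le hj0
        rw [zpow_zero] at this
        exact this
      have h4 : nm Lc lam = nm Lc Lc.π ^ j := hj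
      rw [← h4] at h3
      linarith
    calc l ^ j ≤ l ^ (1 : ℤ) := zpow_le_zpow_right_of_le_one₀ hlpos hl1.le hj1
      _ = l := zpow_one l
  have hw1 : w < 1 := hwl.trans_lt hl1
  -- the value of p
  have hvp : v (p : NN D Lc.S₁) = w ^ (p - 1) := by
    have h1 := min_unit D Lc B hB ((p : FF Lc.S₁) / lam ^ (p - 1)) (by
      have e : (((p : FF Lc.S₁) / lam ^ (p - 1) : FF Lc.S₁) : Acl k Ω) = (p : Acl k Ω) / (lam : Acl k Ω) ^ (p - 1) := by
        push_cast
        rfl
      rw [e, min_nm_div, min_nm_pow, min_nm_p, hlamnm, div_self]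
      positivity)
    rw [map_div₀, map_div₀, map_pow, map_pow, map_natCast] at h1
    exact (div_eq_one_iff_eq (pow_pos hwpos _).ne').1 h1
  -- (i)
  have key1 : ∀ y : NN D Lc.S₁, w ^ p < v y → v y < 1 → (∀ g : NN D Lc.S₁, v y ≠ v g ^ p) →
      ∃ j : ℤ, v y = l ^ j := by
    intro y hy1 hy2 hyg
    obtain ⟨d, hd1, hd2, h, hh1, hyh⟩ := hA0 k Ω D p Lc B hB hN y hy2
    have hhB : h ∈ B := (ValuationSubring.valuation_le_one_iff B h).1 hh1.le
    obtain ⟨r, hr⟩ := exists_add_pow_prime_eq hpp (1 : B) ⟨h, hhB⟩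
    have hr' : (1 + h) ^ p = 1 + h ^ p + (p : NN D Lc.S₁) * h * (r : NN D Lc.S₁) := by
      have := congrArg (fun z : B => (z : NN D Lc.S₁)) hr
      push_cast at this
      rw [one_pow, mul_one] at this
      exact this
    have hrv : v (r : NN D Lc.S₁) ≤ 1 := (ValuationSubring.valuation_le_one_iff B _).2 r.2
    have hyeq : y = inc D Lc.S₁ d + (1 + inc D Lc.S₁ d) * (h ^ p + (p : NN D Lc.S₁) * h * (r : NN D Lc.S₁)) := by
      have h1 : y = (1 + inc D Lc.S₁ d) * (1 + h) ^ p - 1 := by rw [← hyh]; ring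
      rw [h1, hr']
      ring
    have hvd1 : v (inc D Lc.S₁ d) < 1 := by
      by_cases hd0 : d = 0
      · rw [hd0, map_zero, map_zero]
        exact zero_lt_one
      · have := min_lt D Lc B hB d 1 hd0
        rw [map_one, map_one] at this
        refine this.2 ?_
        have e : nm Lc ((1 : FF Lc.S₁) : Acl k Ω) = 1 := min_nm_one Lc
        rw [e]
        exact hd1
    have hv1d : v (1 + inc D Lc.S₁ d) = 1 := Valuation.map_one_add_of_lt v hvd1
    set s := h ^ p + (p : NN D Lc.S₁) * h * (r : NN D Lc.S₁) with hs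
    have hvs2 : v ((1 + inc D Lc.S₁ d) * s) = v s := by rw [map_mul, hv1d, one_mul]
    have hterm : v ((p : NN D Lc.S₁) * h * (r : NN D Lc.S₁)) ≤ w ^ (p - 1) * v h := by
      rw [map_mul, map_mul, hvp]
      calc w ^ (p - 1) * v h * v (r : NN D Lc.S₁) ≤ w ^ (p - 1) * v h * 1 :=
            mul_le_mul_of_nonneg_left hrv zero_le
        _ = w ^ (p - 1) * v h := mul_one _
    have hppow : ∀ a : B.ValueGroup, a ^ (p - 1) * a = a ^ p := by
      intro a
      rw [← pow_succ]
      congr 1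
      omega
    have conc : v y = v (inc D Lc.S₁ d) → ∃ j : ℤ, v y = l ^ j := by
      intro h1
      have hd0 : d ≠ 0 := by
        rintro rfl
        rw [h1, map_zero, map_zero] at hy1
        exact absurd hy1 (not_lt.2 zero_le)
      obtain ⟨j, hj⟩ := min_val D Lc B hB d hd0
      exact ⟨j, h1.trans hj⟩
    rcases le_or_gt (v h) w with hcase | hcase
    · -- second term is small
      have hs1 : v s ≤ w ^ p := by
        rw [hs]
        refine (v.map_add _ _).trans (max_le ?_ ?_)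
        · rw [map_pow]
          exact pow_le_pow_left₀ zero_le hcase p
        · refine hterm.trans ?_
          rw [← hppow w]
          exact mul_le_mul_of_nonneg_left hcase zero_le
      refine conc ?_
      have hyd : v ((1 + inc D Lc.S₁ d) * s) < v y := by
        rw [hvs2]
        exact hs1.trans_lt hy1
      have e : inc D Lc.S₁ d = y - (1 + inc D Lc.S₁ d) * s := by
        rw [eq_sub_iff_add_eq]
        exact hyeq.symm
      rw [e, Valuation.map_sub_eq_of_lt_left v hyd]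
    · have hvhpos : (0 : B.ValueGroup) < v h := hwpos.trans hcase
      have hs1 : v s = v h ^ p := by
        rw [hs, Valuation.map_add_eq_of_lt_left]
        · rw [map_pow]
        · rw [map_pow]
          refine hterm.trans_lt ?_
          rw [← hppow (v h)]
          exact mul_lt_mul_of_pos_right (pow_lt_pow_left₀ hcase zero_le (by omega)) hvhpos
      refine conc ?_
      rcases lt_trichotomy (v (inc D Lc.S₁ d)) (v h ^ p) with h1 | h1 | h1
      · exfalso
        refine hyg h ?_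
        rw [hyeq, Valuation.map_add_eq_of_lt_right]
        · rw [hvs2, hs1]
        · rw [hvs2, hs1]
          exact h1
      · exfalso
        have h2 : w ^ p < v (inc D Lc.S₁ d) := by
          rw [h1]
          exact pow_lt_pow_left₀ hcase zero_le (by omega)
        have hd0 : d ≠ 0 := by
          rintro rfl
          rw [map_zero, map_zero] at h2
          exact absurd h2 (not_lt.2 zero_le)
        have h3 : nm Lc (Lc.ζ - 1) ^ p < nm Lc d := by
          have h4 := min_lt D Lc B hB (lam ^ p) d (pow_ne_zero _ hlam0)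
          rw [map_pow, map_pow] at h4
          have h5 := h4.1 h2
          have e : ((lam ^ p : FF Lc.S₁) : Acl k Ω) = (Lc.ζ - 1) ^ p := rfl
          rw [e, min_nm_pow] at h5
          exact h5
        rcases hd2 with h6 | ⟨i, hi, h6⟩
        · exact absurd h3 (not_lt.2 h6)
        · have h7 := min_val_of D Lc B hB d (i : ℤ) (by rw [zpow_natCast]; exact h6)
          refine min_noroot D Lc B hN (i : ℤ) (fun hdvd => hi (by exact_mod_cast hdvd)) h ?_
          rw [← h7]
          exact h1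
      · rw [hyeq, Valuation.map_add_eq_of_lt_left]
        rw [hvs2, hs1]
        exact h1
  -- (ii)
  have key2 : ∀ g : NN D Lc.S₁, v g < 1 → v g ^ p ≤ l := by
    intro g hg
    by_contra hcon
    push Not at hcon
    have hvy : v (piN D Lc * g ^ p) = l * v g ^ p := by rw [map_mul, map_pow]
    have h1 : l * l < v (piN D Lc * g ^ p) := by
      rw [hvy]
      exact mul_lt_mul_of_pos_left hcon hlpos
    have h2 : v (piN D Lc * g ^ p) < l := by
      rw [hvy]
      calc l * v g ^ p < l * 1 := by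
            refine mul_lt_mul_of_pos_left ?_ hlpos
            exact pow_lt_one₀ zero_le hg (by omega)
        _ = l := mul_one l
    have hgpos : (0 : B.ValueGroup) < v g := by
      rw [zero_lt_iff]
      intro h0
      rw [h0, zero_pow (by omega)] at hcon
      exact absurd hcon (not_lt.2 zero_le)
    have hg0 : g ≠ 0 := by
      rintro rfl
      rw [map_zero] at hgpos
      exact lt_irrefl _ hgpos
    obtain ⟨j, hj⟩ := key1 (piN D Lc * g ^ p) (by
        refine lt_of_le_of_lt ?_ h1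
        calc w ^ p ≤ l ^ p := pow_le_pow_left₀ zero_le hwl p
          _ ≤ l ^ 2 := pow_le_pow_of_le_one zero_le hl1.le hp2
          _ = l * l := sq l) (h2.trans hl1) (by
        intro g' hg'
        refine min_noroot D Lc B hN 1 ?_ (g' / g) ?_
        · intro hdvd
          have := Int.le_of_dvd one_pos hdvd
          omega
        · rw [zpow_one, map_div₀, div_pow, ← hg', hvy, mul_div_cancel_right₀]
          exact (pow_pos hgpos p).ne')
    rw [hj] at h1 h2
    have h3 : j < 2 := by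
      by_contra h
      have h4 : l ^ j ≤ l ^ (2 : ℤ) := zpow_le_zpow_right_of_le_one₀ hlpos hl1.le (not_lt.1 h)
      have e : l ^ (2 : ℤ) = l * l := by
        rw [zpow_ofNat, sq]
      rw [e] at h4
      exact absurd h1 (not_lt.2 h4)
    have h4 : 1 < j := by
      by_contra h
      have h5 : l ^ (1 : ℤ) ≤ l ^ j := zpow_le_zpow_right_of_le_one₀ hlpos hl1.le (not_lt.1 h)
      rw [zpow_one] at h5
      exact absurd h2 (not_lt.2 h5)
    omega
  have fin := min_abs v (piN D Lc) hlpos.ne' p (by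
    intro x hx n hn
    obtain ⟨c, hc, y, hy, hxy⟩ := hKUM k Ω D Lc.S₁ n hn x hx
    obtain ⟨j, hj⟩ := min_val D Lc B hB c hc
    exact ⟨j, y, hy, by rw [hxy, map_mul, map_pow, hj]⟩) key2
  intro x hx
  rw [← ValuationSubring.valuation_le_one_iff, map_div₀, div_le_one₀ hlpos]
  exact fin x hx

end Pool.Agent.Helper14.BSC
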